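import Pool.Agent.Helper35.HC.StE

/-!
# Project HC (MP_925021): module DIN, a growth lemma
-/

set_option autoImplicit false

namespace Helper80.HC

open Helper35.HC Helper35.HSF Helper35.MS Helper35.PI Helper35.PI2 Helper32.CL
open Set Filter Topology

theorem hDIN : StDIN := by
  intro V _ _ f a b K hab hK hf hd
  have key : ∀ η : ℝ, 0 < η → ‖f b - f a‖ ≤ (K + η) * (b - a) := by
    intro η hη
    have h := image_norm_le_of_liminf_right_slope_norm_lt_deriv_boundary
      (f := fun s => f s - f a) (f' := fun _ => K) (a := a) (b := b)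
      (hf.sub continuousOn_const) ?_ (B := fun s => (K + η) * (s - a)) (B' := fun _ => K + η)
      ?_ ?_ ?_ ?_ (right_mem_Icc.mpr hab)
    · exact h
    · intro x hx r hr
      have hr2 : 0 < (r - K) / 2 := by linarith
      apply Eventually.frequently
      filter_upwards [hd x hx _ hr2, self_mem_nhdsWithin] with z hz hxz
      have hxz' : 0 < z - x := sub_pos.mpr hxz
      have h1 : ‖f z - f a‖ - ‖f x - f a‖ ≤ ‖f z - f x‖ := by
        have h2 := norm_sub_norm_le (f z - f a) (f x - f a)
        rwa [sub_sub_sub_cancel_right] at h2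
      rw [slope_def_field]
      show (‖f z - f a‖ - ‖f x - f a‖) / (z - x) < r
      rw [div_lt_iff₀ hxz']
      have h3 : (K + (r - K) / 2) * (z - x) < r * (z - x) :=
        mul_lt_mul_of_pos_right (by linarith) hxz'
      linarith
    · show ‖f a - f a‖ ≤ (K + η) * (a - a)
      simp
    · fun_prop
    · intro x _
      have h2 : HasDerivAt (fun s : ℝ => (K + η) * (s - a)) ((K + η) * 1) x :=
        ((hasDerivAt_id x).sub_const a).const_mul (K + η)
      rw [mul_one] at h2
      exact h2.hasDerivWithinAt
    · intro x _ _
      show K < K + η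
      linarith
  by_contra hcon
  push Not at hcon
  rcases hab.eq_or_lt with rfl | hlt
  · simp at hcon
  · have hba : 0 < b - a := sub_pos.mpr hlt
    have h1 := key ((‖f b - f a‖ - K * (b - a)) / (2 * (b - a))) (div_pos (by linarith) (by linarith))
    have h2 : (K + (‖f b - f a‖ - K * (b - a)) / (2 * (b - a))) * (b - a) =
        K * (b - a) + (‖f b - f a‖ - K * (b - a)) / 2 := by
      field_simp
    rw [h2] at h1
    linarith

end Helper80.HC
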